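import Mathlib
import Pool.Agent.TH764.OG.Fin5

/-!
# Free sequences bound the ranks of functions modulo finite sets
-/

set_option autoImplicit false

namespace Pool.Agent.T6.H69.EHM

open Set Cardinal Ordinal Pool.Agent.TH764.OG

/-- Free sequences: for every assignment `B` of finite subsets of `D` to the finite sequences of
elements of `D` there is an infinite sequence `x` none of whose terms `x k` belongs to
`B (x (k + 1), …, x (k + n))` for any `n`. -/
def FreeSeq (D : Type) : Prop :=
  ∀ B : List D → Set D, (∀ s, (B s).Finite) →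
    ∃ x : ℕ → D, ∀ k n, x k ∉ B ((List.range n).map fun j => x (k + 1 + j))

/-! ### Free sequences bound ranks -/

section A

variable {D : Type} {l : Ordinal.{0}}

/-- functions with a rank -/
abbrev Nd (D : Type) (l : Ordinal.{0}) : Type 1 :=
  {p : (D → l.ToType) × Ordinal.{0} // Wf D p.1 p.2}

/-- one step down -/
noncomputable def nxt (w : Nd D l) (δ : Ordinal.{0}) : Nd D l :=
  open Classical in
  if h : δ < w.1.2 then ⟨((w.2.exists_lower h).choose, δ), (w.2.exists_lower h).choose_spec.2⟩
  else w

lemma nxt_snd {w : Nd D l} {δ : Ordinal.{0}} (h : δ < w.1.2) : (nxt w δ).1.2 = δ := by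
  unfold nxt
  rw [dif_pos h]

/-- the exceptional set of a step -/
def exc (w : Nd D l) (δ : Ordinal.{0}) : Set D := {i | δ < w.1.2 ∧ ¬ (nxt w δ).1.1 i < w.1.1 i}

lemma exc_finite (w : Nd D l) (δ : Ordinal.{0}) : (exc w δ).Finite := by
  by_cases h : δ < w.1.2
  · have h1 := (w.2.exists_lower h).choose_spec.1
    refine h1.subset ?_
    rintro i ⟨_, hi⟩
    have h2 : (nxt w δ).1.1 = (w.2.exists_lower h).choose := by
      unfold nxt
      rw [dif_pos h]
    rw [h2] at hi
    exact hi
  · refine Set.finite_empty.subset ?_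
    rintro i ⟨hi, _⟩
    exact absurd hi h

/-- the values of the functions at `x` along a sequence of steps -/
noncomputable def walk : Nd D l → D → List Ordinal.{0} → List Ordinal.{0}
  | w, x, [] => [(ToType.toOrd (w.1.1 x) : Ordinal.{0})]
  | w, x, δ :: σ => (ToType.toOrd (w.1.1 x) : Ordinal.{0}) :: walk (nxt w δ) x σ

/-- the exceptional set of a sequence of steps -/
noncomputable def excl : Nd D l → List Ordinal.{0} → Set D
  | _, [] => ∅
  | w, δ :: σ => exc w δ ∪ excl (nxt w δ) σ

lemma excl_finite (σ : List Ordinal.{0}) : ∀ w : Nd D l, (excl w σ).Finite := by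
  induction σ with
  | nil => exact fun _ => Set.finite_empty
  | cons δ σ ih => exact fun w => (exc_finite w δ).union (ih _)

/-- descending sequences below `a` -/
def Desc : Ordinal.{0} → List Ordinal.{0} → Prop
  | _, [] => True
  | a, δ :: σ => δ < a ∧ Desc δ σ

lemma walk_desc (x : D) (σ : List Ordinal.{0}) : ∀ (w : Nd D l) (a : Ordinal.{0}),
    Desc w.1.2 σ → x ∉ excl w σ → (ToType.toOrd (w.1.1 x) : Ordinal.{0}) < a →
    Desc a (walk w x σ) := by
  induction σ with
  | nil => exact fun w a _ _ h => ⟨h, trivial⟩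
  | cons δ σ ih =>
    intro w a h1 h2 h3
    refine ⟨h3, ih (nxt w δ) _ ?_ (fun h => h2 (Or.inr h)) ?_⟩
    · rw [nxt_snd h1.1]
      exact h1.2
    · rw [toOrd_lt_toOrd]
      by_contra hcon
      exact h2 (Or.inl ⟨h1.1, hcon⟩)

lemma walk_append (x : D) (δ : Ordinal.{0}) (σ : List Ordinal.{0}) : ∀ w : Nd D l,
    ∃ z, walk w x (σ ++ [δ]) = walk w x σ ++ [z] := by
  induction σ with
  | nil => exact fun w => ⟨_, rfl⟩
  | cons ε σ ih =>
    intro w
    obtain ⟨z, hz⟩ := ih (nxt w ε)
    refine ⟨z, ?_⟩
    rw [List.cons_append, walk, hz]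
    rfl

/-- the descending sequence attached to a finite sequence of elements of `D` -/
noncomputable def SS (w : Nd D l) : List D → List Ordinal.{0}
  | [] => []
  | x :: s => walk w x (SS w s)

lemma SS_append (w : Nd D l) (y : D) (s : List D) : ∃ z, SS w (s ++ [y]) = SS w s ++ [z] := by
  induction s with
  | nil => exact ⟨_, rfl⟩
  | cons x s ih =>
    obtain ⟨z, hz⟩ := ih
    obtain ⟨z', hz'⟩ := walk_append x z (SS w s) w
    refine ⟨z', ?_⟩
    rw [List.cons_append, SS, hz, hz']
    rfl

lemma desc_last (a b c : Ordinal.{0}) (σ : List Ordinal.{0}) :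
    Desc a (σ ++ [b] ++ [c]) → c < b := by
  induction σ generalizing a with
  | nil => exact fun h => h.2.1
  | cons ε σ ih => exact fun h => ih ε h.2

/-- Free sequences bound the ranks. -/
theorem FreeSeq.not_wf (hD : FreeSeq D) (t : D → l.ToType) : ¬ Wf D t l := by
  intro ht
  let w : Nd D l := ⟨(t, l), ht⟩
  obtain ⟨x, hx⟩ := hD (fun s => excl w (SS w s)) (fun s => excl_finite _ _)
  have hdesc : ∀ n k, Desc l (SS w ((List.range n).map fun j => x (k + j))) := by
    intro n
    induction n with
    | zero => exact fun k => trivial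
    | succ n ih =>
      intro k
      have h1 : ((List.range (n + 1)).map fun j => x (k + j)) =
          x k :: (List.range n).map fun j => x (k + 1 + j) := by
        rw [List.range_succ_eq_map, List.map_cons, List.map_map, add_zero]
        congr 1
        refine List.map_congr_left fun j _ => ?_
        simp only [Function.comp_apply, Nat.succ_eq_add_one]
        congr 1
        omega
      rw [h1]
      exact walk_desc (x k) _ w l (ih (k + 1)) (hx k n) (Set.mem_Iio.1 (ToType.toOrd (t (x k))).2)
  have happ : ∀ n, ∃ z, SS w ((List.range (n + 1)).map fun j => x (0 + j)) =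
      SS w ((List.range n).map fun j => x (0 + j)) ++ [z] := by
    intro n
    obtain ⟨z, hz⟩ := SS_append w (x (0 + n)) ((List.range n).map fun j => x (0 + j))
    refine ⟨z, ?_⟩
    rw [← hz]
    congr 1
    rw [List.range_succ, List.map_append]
    rfl
  choose z hz using happ
  have hlt : ∀ n, z (n + 1) < z n := by
    intro n
    have h1 := hdesc (n + 1 + 1) 0
    rw [hz (n + 1), hz n] at h1
    exact desc_last _ _ _ _ h1
  obtain ⟨n, hn⟩ := WellFounded.not_rel_apply_succ (r := ((· < ·) : Ordinal.{0} → Ordinal.{0} → Prop)) z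
  exact hn (hlt n)

end A

end Pool.Agent.T6.H69.EHM
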