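import Mathlib
import Pool.Agent.T6.H69.EHM.FreeA

/-!
# Without free sequences there are functions of large rank
-/

set_option autoImplicit false

namespace Pool.Agent.T6.H69.EHM

open Set Cardinal Ordinal Pool.Agent.TH764.OG

section B

variable {D : Type} (B : List D → Set D)

/-- the finite free sequences -/
def Fr : List D → Prop
  | [] => True
  | x :: s => (∀ b, b <+: s → x ∉ B b) ∧ Fr s

variable {B}

lemma Fr.left (a : List D) : ∀ {b : List D}, Fr B (a ++ b) → Fr B a := by
  induction a with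
  | nil => exact fun _ => trivial
  | cons x a ih =>
    intro b h
    exact ⟨fun c hc => h.1 c (hc.trans (List.prefix_append _ _)), ih h.2⟩

lemma Fr.right (a : List D) : ∀ {b : List D}, Fr B (a ++ b) → Fr B b := by
  induction a with
  | nil => exact fun h => h
  | cons x a ih => exact fun h => ih h.2

variable (B) in
/-- one-point end-extensions which are free -/
def Ext (s' s : List D) : Prop := Fr B s' ∧ ∃ y, s' = s ++ [y]

lemma ext_wf (h : ¬ ∃ x : ℕ → D, ∀ k n, x k ∉ B ((List.range n).map fun j => x (k + 1 + j))) :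
    WellFounded (Ext B) := by
  rw [wellFounded_iff_isEmpty_descending_chain]
  refine ⟨?_⟩
  rintro ⟨f, hf⟩
  choose hf1 y hy using hf
  apply h
  have h1 : ∀ n, f n = f 0 ++ (List.range n).map y := by
    intro n
    induction n with
    | zero => simp
    | succ n ih =>
      rw [hy n, ih, List.range_succ, List.map_append, List.append_assoc]
      rfl
  have h2 : ∀ n, Fr B ((List.range n).map y) := by
    intro n
    have h3 := hf1 n
    rw [h1 (n + 1)] at h3
    have h4 := Fr.right _ h3
    rw [List.range_succ, List.map_append] at h4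
    exact Fr.left _ h4
  refine ⟨y, fun k n => ?_⟩
  have h3 := h2 (k + 1 + n)
  rw [List.range_add, List.map_append, List.range_succ, List.map_append, List.append_assoc] at h3
  have h4 := Fr.right _ h3
  have h5 : (List.map y (List.map (fun x => k + 1 + x) (List.range n))) =
      (List.range n).map fun j => y (k + 1 + j) := by
    rw [List.map_map]
    rfl
  rw [h5] at h4
  exact h4.1 _ (List.prefix_refl _)

lemma not_fr_cons {s : List D} (hs : Fr B s) (hB : ∀ s, (B s).Finite) :
    {i | ¬ Fr B (i :: s)}.Finite := by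
  have h1 : {b : List D | b <+: s}.Finite := by
    classical
    refine (Finset.finite_toSet s.inits.toFinset).subset ?_
    intro b hb
    simp only [List.coe_toFinset, Set.mem_ofPred_eq]
    exact (List.mem_inits _ _).mpr hb
  refine (h1.biUnion fun b _ => hB b).subset ?_
  intro i hi
  by_contra hcon
  apply hi
  refine ⟨fun b hb hib => hcon ?_, hs⟩
  exact Set.mem_biUnion (s := {b : List D | b <+: s}) hb hib

section Rank

variable (hwf : WellFounded (Ext B))

/-- the rank of a finite sequence -/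
noncomputable def rkk (hwf : WellFounded (Ext B)) (s : List D) : Ordinal.{0} :=
  (hwf.apply s).rank

include hwf in
lemma rkk_lt {s : List D} {y : D} (h : Fr B (s ++ [y])) : rkk hwf (s ++ [y]) < rkk hwf s :=
  Acc.rank_lt_of_rel (hwf.apply s) ⟨h, y, rfl⟩

include hwf in
lemma exists_rkk {s : List D} {δ : Ordinal.{0}} (h : δ < rkk hwf s) :
    ∃ y, Fr B (s ++ [y]) ∧ δ ≤ rkk hwf (s ++ [y]) := by
  by_contra hcon
  push Not at hcon
  unfold rkk at h
  rw [Acc.rank_eq] at h
  refine absurd h (not_lt.2 ?_)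
  refine Ordinal.iSup_le ?_
  rintro ⟨s', h1, y, rfl⟩
  exact Order.succ_le_of_lt (hcon y h1)

include hwf in
lemma rkk_append (u : List D) : ∀ s : List D, u ≠ [] → Fr B (s ++ u) →
    rkk hwf (s ++ u) < rkk hwf s := by
  induction u with
  | nil => exact fun _ h => absurd rfl h
  | cons y u ih =>
    intro s _ h
    have h1 : s ++ y :: u = (s ++ [y]) ++ u := by simp
    rw [h1] at h ⊢
    have h2 : rkk hwf (s ++ [y]) < rkk hwf s := rkk_lt hwf (Fr.left _ h)
    rcases eq_or_ne u [] with rfl | hu
    · rw [List.append_nil]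
      exact h2
    · exact (ih (s ++ [y]) hu h).trans h2

/-- the functions of large rank -/
noncomputable def tf (hwf : WellFounded (Ext B)) (z : (rkk hwf []).ToType) (s : List D) (i : D) :
    (rkk hwf []).ToType :=
  open Classical in
  if h : Fr B (i :: s) then
    ToType.mk ⟨rkk hwf (i :: s), by
      have := rkk_append hwf (i :: s) [] (List.cons_ne_nil _ _) h
      exact this⟩
  else z

include hwf in
theorem tf_wf (hB : ∀ s, (B s).Finite) (z : (rkk hwf []).ToType) (s : List D) : Fr B s →
    Wf D (tf hwf z s) (rkk hwf s) := by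
  induction s using hwf.induction with
  | _ s ih =>
  intro hs
  refine Wf.intro fun δ hδ => ?_
  obtain ⟨y, hy1, hy2⟩ := exists_rkk hwf hδ
  refine ⟨tf hwf z (s ++ [y]), ?_, (ih (s ++ [y]) ⟨hy1, y, rfl⟩ hy1).mono hy2⟩
  refine (not_fr_cons hy1 hB).subset ?_
  intro i hi
  by_contra hcon
  rw [Set.mem_ofPred_eq, not_not] at hcon
  apply hi
  have h2 : Fr B (i :: s) := Fr.left (i :: s) (b := [y]) hcon
  unfold tf
  rw [dif_pos hcon, dif_pos h2, ← toOrd_lt_toOrd, toOrd_mk', toOrd_mk']
  exact rkk_lt hwf (s := i :: s) (y := y) hcon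

end Rank

/-- Without free sequences there is a function with a rank at least as large as a bound of its
values. -/
theorem exists_wf_of_not_free (hinf : Infinite D) (h : ¬ FreeSeq D) :
    ∃ ρ : Ordinal.{0}, ρ < (Order.succ #D).ord ∧ ∃ t : D → ρ.ToType, Wf D t ρ := by
  unfold FreeSeq at h
  push Not at h
  obtain ⟨B, hB, h⟩ := h
  have h' : ¬ ∃ x : ℕ → D, ∀ k n, x k ∉ B ((List.range n).map fun j => x (k + 1 + j)) := by
    push Not
    exact h
  have hwf := ext_wf h'
  have h0 : 0 < rkk hwf [] := by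
    obtain ⟨x, hx⟩ : ∃ x, x ∉ B [] := by
      by_contra hcon
      push Not at hcon
      exact Set.infinite_univ ((hB []).subset fun x _ => hcon x)
    have h1 : Fr B ([] ++ [x]) := by
      refine ⟨fun b hb => ?_, trivial⟩
      rw [List.prefix_nil.1 hb]
      exact hx
    exact lt_of_le_of_lt zero_le (rkk_lt hwf h1)
  refine ⟨rkk hwf [], ?_, tf hwf (ToType.mk ⟨0, h0⟩) [], tf_wf hwf hB _ [] trivial⟩
  have hD : ℵ₀ ≤ #D := Cardinal.aleph0_le_mk D
  have hreg : (Order.succ #D).IsRegular := Cardinal.isRegular_succ hD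
  have hall : ∀ s : List D, rkk hwf s < (Order.succ #D).ord := by
    intro s
    induction s using hwf.induction with
    | _ s ih =>
    unfold rkk
    rw [Acc.rank_eq]
    refine Ordinal.iSup_lt_of_lt_cof ?_ ?_
    · rw [hreg.cof_ord]
      refine lt_of_le_of_lt (Cardinal.mk_subtype_le _) ?_
      rw [Cardinal.mk_list_eq_mk]
      exact Order.lt_succ _
    · rintro ⟨s', hs'⟩
      exact (Cardinal.isSuccLimit_ord hreg.aleph0_le).succ_lt (ih s' hs')
  exact hall []

/-- change of the range, for almost equal functions -/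
lemma Wf.restrict {ρ l : Ordinal.{0}} (z : l.ToType) (ν : Ordinal.{0}) :
    ∀ (t : D → ρ.ToType) (u : D → l.ToType), Wf D t ν →
    {i | ¬ (ToType.toOrd (t i) : Ordinal.{0}) ≤ ToType.toOrd (u i)}.Finite → Wf D u ν := by
  classical
  induction ν using WellFoundedLT.induction with
  | ind ν ih =>
  intro t u ht htu
  refine Wf.intro fun δ hδ => ?_
  obtain ⟨s, hs1, hs2⟩ := ht.exists_lower hδ
  let u' : D → l.ToType := fun i =>
    if h : (ToType.toOrd (s i) : Ordinal.{0}) < l then
      ToType.mk ⟨(ToType.toOrd (s i) : Ordinal.{0}), h⟩ else z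
  have hu' : ∀ i, s i < t i → (ToType.toOrd (t i) : Ordinal.{0}) ≤ ToType.toOrd (u i) →
      (ToType.toOrd (u' i) : Ordinal.{0}) = ToType.toOrd (s i) := by
    intro i h1 h2
    have h3 : (ToType.toOrd (s i) : Ordinal.{0}) < l :=
      (toOrd_lt_toOrd.2 h1).trans_le (h2.trans (Set.mem_Iio.1 (ToType.toOrd (u i)).2).le)
    simp only [u', dif_pos h3]
    exact toOrd_mk' h3
  refine ⟨u', (hs1.union htu).subset ?_, ih δ hδ s u' hs2 ((hs1.union htu).subset ?_)⟩
  · intro i hi
    by_contra hcon
    rw [Set.mem_union, not_or, Set.mem_ofPred_eq, Set.mem_ofPred_eq, not_not, not_not] at hcon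
    apply hi
    rw [← toOrd_lt_toOrd, hu' i hcon.1 hcon.2]
    exact (toOrd_lt_toOrd.2 hcon.1).trans_le hcon.2
  · intro i hi
    by_contra hcon
    rw [Set.mem_union, not_or, Set.mem_ofPred_eq, Set.mem_ofPred_eq, not_not, not_not] at hcon
    apply hi
    rw [hu' i hcon.1 hcon.2]

/-- Without free sequences there is a limit ordinal which is not strongly closed. -/
theorem exists_limit_of_not_free (hinf : Infinite D) (h : ¬ FreeSeq D) :
    ∃ l : Ordinal.{0}, Order.IsSuccLimit l ∧ l < (Order.succ #D).ord ∧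
      ∃ t : D → l.ToType, Wf D t l := by
  classical
  obtain ⟨ρ, hρ, t, ht⟩ := exists_wf_of_not_free hinf h
  obtain ⟨n, hn⟩ := Ordinal.lt_omega0.1 (Ordinal.mod_lt ρ Ordinal.omega0_ne_zero)
  have hρn : ω * (ρ / ω) + n = ρ := by
    rw [← hn]
    exact Ordinal.div_add_mod ρ ω
  obtain ⟨l, hl⟩ : ∃ l, l = ω * (ρ / ω) := ⟨_, rfl⟩
  rw [← hl] at hρn
  have key : ∀ n : ℕ, ∀ t : D → ρ.ToType, Wf D t (l + n) →
      {i | ¬ (ToType.toOrd (t i) : Ordinal.{0}) < l + n}.Finite →
      ∃ t' : D → ρ.ToType, Wf D t' l ∧ {i | ¬ (ToType.toOrd (t' i) : Ordinal.{0}) < l}.Finite := by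
    intro n
    induction n with
    | zero =>
      intro t h1 h2
      rw [Nat.cast_zero, add_zero] at h1 h2
      exact ⟨t, h1, h2⟩
    | succ n ih =>
      intro t h1 h2
      have h3 : l + (n : Ordinal.{0}) < l + ((n + 1 : ℕ) : Ordinal.{0}) := by
        rw [Nat.cast_succ, ← add_assoc]
        exact Order.lt_add_one_iff.2 le_rfl
      obtain ⟨s, hs1, hs2⟩ := h1.exists_lower h3
      refine ih s hs2 ((hs1.union h2).subset ?_)
      intro i hi
      by_contra hcon
      rw [Set.mem_union, not_or, Set.mem_ofPred_eq, Set.mem_ofPred_eq, not_not, not_not] at hcon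
      apply hi
      have h4 := toOrd_lt_toOrd.2 hcon.1
      have h5 := hcon.2
      rw [Nat.cast_succ, ← add_assoc] at h5
      exact h4.trans_le (Order.lt_add_one_iff.1 h5)
  obtain ⟨t', h1, h2⟩ := key n t (by rw [hρn]; exact ht) (by
    have h3 : {i | ¬ (ToType.toOrd (t i) : Ordinal.{0}) < l + n} = ∅ := by
      ext i
      simp only [Set.mem_ofPred_eq, Set.mem_empty_iff_false, iff_false, not_not]
      rw [hρn]
      exact Set.mem_Iio.1 (ToType.toOrd (t i)).2
    rw [h3]
    exact Set.finite_empty)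
  have hl0 : l ≠ 0 := by
    rintro h0
    rw [h0] at h2
    refine Set.infinite_univ (h2.subset fun i _ => ?_)
    rw [Set.mem_ofPred_eq]
    exact not_lt.2 zero_le
  have hlim : Order.IsSuccLimit l := by
    rw [hl]
    refine Ordinal.isSuccLimit_mul_left Ordinal.isSuccLimit_omega0 (pos_iff_ne_zero.2 ?_)
    rintro h0
    apply hl0
    rw [hl, h0, mul_zero]
  have hlρ : l ≤ ρ := by
    rw [← hρn]
    exact le_self_add
  let z : l.ToType := ToType.mk ⟨0, pos_iff_ne_zero.2 hl0⟩
  let u : D → l.ToType := fun i =>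
    if h : (ToType.toOrd (t' i) : Ordinal.{0}) < l then
      ToType.mk ⟨(ToType.toOrd (t' i) : Ordinal.{0}), h⟩ else z
  refine ⟨l, hlim, hlρ.trans_lt hρ, u, Wf.restrict z l t' u h1 (h2.subset ?_)⟩
  intro i hi hcon
  apply hi
  simp only [u, dif_pos hcon]
  rw [toOrd_mk' hcon]

end B

end Pool.Agent.T6.H69.EHM
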