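import Mathlib
import Pool.Agent.T6.H69.EHM.FreeB

/-!
# Families of small sets reflect to smaller cardinals
-/

set_option autoImplicit false

namespace Pool.Agent.T6.H69.EHM

open Set Cardinal Ordinal Pool.Agent.TH764.OG

/-- closure of a small set under few functions of two variables -/
lemma exists_closed {X ι : Type} {κ : Cardinal.{0}} (hκ : ℵ₀ ≤ κ) (hι : #ι ≤ κ) (Y₀ : Set X)
    (hY : #Y₀ ≤ κ) (F : ι → X → X → X) : ∃ Y : Set X, Y₀ ⊆ Y ∧ #Y ≤ κ ∧
      ∀ i, ∀ x ∈ Y, ∀ y ∈ Y, F i x y ∈ Y := by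
  let Z : ℕ → Set X := fun n => Nat.rec (motive := fun _ => Set X) Y₀
    (fun _ (A : Set X) => A ∪ Set.range fun p : ι × A × A => F p.1 p.2.1.1 p.2.2.1) n
  have hZ : ∀ n, Z (n + 1) = Z n ∪
      Set.range fun p : ι × Z n × Z n => F p.1 p.2.1.1 p.2.2.1 := fun n => rfl
  have hmono : ∀ m n, m ≤ n → Z m ⊆ Z n := by
    intro m n hmn
    induction n, hmn using Nat.le_induction with
    | base => exact subset_rfl
    | succ n _ ih =>
      rw [hZ n]
      exact ih.trans Set.subset_union_left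
  have hcard : ∀ n, #(Z n) ≤ κ := by
    intro n
    induction n with
    | zero => exact hY
    | succ n ih =>
      rw [hZ n]
      refine (Cardinal.mk_union_le _ _).trans ((add_le_add ih ?_).trans
        (Cardinal.add_eq_self hκ).le)
      refine Cardinal.mk_range_le.trans ?_
      simp only [Cardinal.mk_prod, Cardinal.lift_id]
      exact (mul_le_mul' hι ((mul_le_mul' ih ih).trans (Cardinal.mul_eq_self hκ).le)).trans
        (Cardinal.mul_eq_self hκ).le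
  refine ⟨⋃ n, Z n, Set.subset_iUnion Z 0, ?_, ?_⟩
  · refine (Cardinal.mk_iUnion_le_sum_mk).trans ?_
    refine (Cardinal.sum_le_sum _ (fun _ : ℕ => κ) hcard).trans ?_
    rw [Cardinal.sum_const, Cardinal.lift_id, Cardinal.lift_id, Cardinal.mk_nat]
    exact (mul_le_mul' hκ le_rfl).trans (Cardinal.mul_eq_self hκ).le
  · intro i x hx y hy
    obtain ⟨m, hx⟩ := Set.mem_iUnion.1 hx
    obtain ⟨n, hy⟩ := Set.mem_iUnion.1 hy
    refine Set.mem_iUnion.2 ⟨max m n + 1, ?_⟩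
    rw [hZ]
    exact Or.inr ⟨(i, ⟨x, hmono _ _ (le_max_left _ _) hx⟩, ⟨y, hmono _ _ (le_max_right _ _) hy⟩),
      rfl⟩

/-- A family of small sets of an indecomposable ordinal reflects to all smaller cardinals. -/
theorem smallCover_reflect {κ κ' : Cardinal.{0}} (hκ' : ℵ₀ ≤ κ') (hle : κ' ≤ κ)
    {γ : Ordinal.{0}} (hc : κ' ≤ (ω ^ γ).card) (hS : SmallCover κ (ω ^ γ)) :
    ∃ γ' : Ordinal.{0}, (ω ^ γ').card = κ' ∧ SmallCover κ' (ω ^ γ') := by
  classical
  obtain ⟨S, hS1, hS2⟩ := hS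
  obtain ⟨e⟩ : Nonempty (κ'.ord.ToType ↪ κ.ord.ToType) := (Cardinal.le_def _ _).1 (by
    rw [Cardinal.mk_ord_toType, Cardinal.mk_ord_toType]
    exact hle)
  have hpr : IsPrincipal (· + ·) (ω ^ γ : Ordinal.{0}) := Ordinal.isPrincipal_add_omega0_opow γ
  obtain ⟨α, hα⟩ : ∃ α : Ordinal.{0}, α = ω ^ γ := ⟨_, rfl⟩
  rw [← hα] at hpr hc
  subst hα
  -- the comparison maps
  let b : κ'.ord.ToType → (ω ^ γ : Ordinal.{0}).ToType := fun d =>
    ToType.mk ⟨typeLT (S (e d)), hS1 (e d)⟩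
  let g : κ'.ord.ToType → (ω ^ γ : Ordinal.{0}).ToType → (ω ^ γ : Ordinal.{0}).ToType := fun d x =>
    if h : x ∈ S (e d) then ToType.mk ⟨Ordinal.typein (α := S (e d)) (· < ·) ⟨x, h⟩,
      show _ < (ω ^ γ : Ordinal.{0}) from (Ordinal.typein_lt_type _ _).trans (hS1 (e d))⟩ else x
  have hg1 : ∀ d, ∀ x ∈ S (e d), g d x < b d := by
    intro d x hx
    simp only [g, dif_pos hx, b]
    rw [← toOrd_lt_toOrd, toOrd_mk', toOrd_mk']
    exact Ordinal.typein_lt_type _ _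
  have hg2 : ∀ d, ∀ x ∈ S (e d), ∀ y ∈ S (e d), x < y → g d x < g d y := by
    intro d x hx y hy hxy
    simp only [g, dif_pos hx, dif_pos hy]
    rw [← toOrd_lt_toOrd, toOrd_mk', toOrd_mk', Ordinal.typein_lt_typein]
    exact hxy
  have hadd : ∀ x y : (ω ^ γ : Ordinal.{0}).ToType,
      (ToType.toOrd x : Ordinal.{0}) + ToType.toOrd y < ω ^ γ := fun x y =>
    hpr (ToType.toOrd x).2 (ToType.toOrd y).2
  let ad : (ω ^ γ : Ordinal.{0}).ToType → (ω ^ γ : Ordinal.{0}).ToType →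
      (ω ^ γ : Ordinal.{0}).ToType := fun x y =>
    ToType.mk ⟨(ToType.toOrd x : Ordinal.{0}) + ToType.toOrd y,
      hadd x y⟩
  have had : ∀ x y, (ToType.toOrd (ad x y) : Ordinal.{0}) =
      (ToType.toOrd x : Ordinal.{0}) + ToType.toOrd y := fun x y => toOrd_mk' _
  obtain ⟨Y₁, hY₁⟩ := Cardinal.le_mk_iff_exists_set.1 (show κ' ≤ #(ω ^ γ : Ordinal.{0}).ToType by
    rw [Cardinal.mk_toType]
    exact hc)
  obtain ⟨Y, hY0, hY1, hY2⟩ := exists_closed (X := (ω ^ γ : Ordinal.{0}).ToType)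
    (ι := Option κ'.ord.ToType) hκ' (by
      rw [Cardinal.mk_option, Cardinal.mk_ord_toType]
      exact (add_le_add le_rfl (Cardinal.one_lt_aleph0.le.trans hκ')).trans
        (Cardinal.add_eq_self hκ').le) (Y₁ ∪ Set.range b) (by
      refine (Cardinal.mk_union_le _ _).trans ((add_le_add hY₁.le ?_).trans
        (Cardinal.add_eq_self hκ').le)
      exact Cardinal.mk_range_le.trans (by rw [Cardinal.mk_ord_toType]))
    (fun i x y => match i with
      | none => ad x y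
      | some d => g d x)
  have hYb : ∀ d, b d ∈ Y := fun d => hY0 (Or.inr ⟨d, rfl⟩)
  have hYg : ∀ d, ∀ x ∈ Y, g d x ∈ Y := fun d x hx => hY2 (some d) x hx x hx
  have hYad : ∀ x ∈ Y, ∀ y ∈ Y, ad x y ∈ Y := fun x hx y hy => hY2 none x hx y hy
  have hYcard : #Y = κ' := le_antisymm hY1 (by
    rw [← hY₁]
    exact Cardinal.mk_le_mk_of_subset (Set.subset_union_left.trans hY0))
  have hIio : ∀ β ∈ Y, typeLT (Y ∩ Set.Iio β : Set (ω ^ γ : Ordinal.{0}).ToType) < typeLT Y := by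
    intro β hβ
    have h1 := type_add_le (Y ∩ Set.Iio β) {β} Y (by
      rintro a ⟨_, ha⟩ c hc
      rw [Set.mem_singleton_iff.1 hc]
      exact ha) Set.inter_subset_left (Set.singleton_subset_iff.2 hβ)
    have h2 : typeLT ({β} : Set (ω ^ γ : Ordinal.{0}).ToType) = 1 := Ordinal.type_eq_one_of_unique _
    rw [h2] at h1
    exact Order.add_one_le_iff.1 h1
  have hprY : IsPrincipal (· + ·) (typeLT Y) := by
    intro o₁ o₂ h1 h2
    obtain ⟨β, hβ⟩ := Ordinal.typein_surj (α := Y) (· < ·) h1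
    have h3 : o₁ = typeLT (Y ∩ Set.Iio β.1 : Set (ω ^ γ : Ordinal.{0}).ToType) := by
      rw [← hβ, Ordinal.typein]
      refine Ordinal.type_eq.2 ⟨⟨⟨fun x => ⟨x.1.1, x.1.2, x.2⟩, fun x => ⟨⟨x.1, x.2.1⟩, x.2.2⟩,
        fun x => rfl, fun x => rfl⟩, Iff.rfl⟩⟩
    have h4 : typeLT Y ≤ typeLT (Y ∩ Set.Ici β.1 : Set (ω ^ γ : Ordinal.{0}).ToType) := by
      rw [Ordinal.type_le_iff']
      refine ⟨RelEmbedding.ofMonotone (fun x : Y => (⟨ad β.1 x.1, hYad _ β.2 _ x.2, ?_⟩ :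
        (Y ∩ Set.Ici β.1 : Set (ω ^ γ : Ordinal.{0}).ToType))) ?_⟩
      · rw [Set.mem_Ici, ← toOrd_le_toOrd, had]
        exact le_self_add
      · intro x y hxy
        change ad β.1 x.1 < ad β.1 y.1
        rw [← toOrd_lt_toOrd, had, had]
        exact (add_lt_add_iff_left _).2 (toOrd_lt_toOrd.2 hxy)
    have h5 : o₁ + o₂ < typeLT Y := by
      refine lt_of_lt_of_le ((add_lt_add_iff_left o₁).2 (h2.trans_le h4)) ?_
      rw [h3]
      refine type_add_le _ _ _ ?_ Set.inter_subset_left Set.inter_subset_left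
      rintro a ⟨_, ha⟩ c ⟨_, hc⟩
      exact lt_of_lt_of_le ha hc
    exact h5
  have hne : typeLT Y ≠ 0 := by
    intro h
    have h1 : #Y = 0 := by
      rw [← Ordinal.card_type ((· < ·) : Y → Y → Prop), h, Ordinal.card_zero]
    rw [hYcard] at h1
    exact (Cardinal.aleph0_pos.trans_le hκ').ne' h1
  obtain ⟨γ', hγ'⟩ : ∃ γ' : Ordinal.{0}, ω ^ γ' = typeLT Y := by
    rcases Ordinal.isPrincipal_add_iff_zero_or_omega0_opow.1 hprY with h | ⟨γ', h⟩
    · exact absurd h hne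
    · exact ⟨γ', h⟩
  refine ⟨γ', ?_, ?_⟩
  · rw [hγ', Ordinal.card_type, hYcard]
  rw [hγ']
  obtain ⟨f⟩ : Nonempty (((· < ·) : (typeLT Y).ToType → (typeLT Y).ToType → Prop) ≃r
      ((· < ·) : Y → Y → Prop)) := Ordinal.type_eq.1 (Ordinal.type_toType _)
  refine ⟨fun d => {x | (f x).1 ∈ S (e d)}, ?_, ?_⟩
  · intro d
    refine lt_of_le_of_lt ?_ (hIio (b d) (hYb d))
    rw [Ordinal.type_le_iff']
    refine ⟨RelEmbedding.ofMonotone (fun x => (⟨g d (f x.1).1, hYg d _ (f x.1).2,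
      hg1 d _ x.2⟩ : (Y ∩ Set.Iio (b d) : Set (ω ^ γ : Ordinal.{0}).ToType))) ?_⟩
    intro x y hxy
    exact hg2 d _ x.2 _ y.2 (f.map_rel_iff.2 hxy)
  · intro x
    exact (hS2 (f x).1).preimage e.injective.injOn

end Pool.Agent.T6.H69.EHM
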