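import Mathlib
import Pool.Agent.T6.H69.EHM.Reflect

/-!
# The path relation at cardinalities above a cardinal with free sequences
-/

set_option autoImplicit false

namespace Pool.Agent.T6.H69.EHM

open Set Cardinal Ordinal Pool.Agent.TH764.OG

variable {μ : Cardinal.{0}}

lemma sCldF_of_free (hF : FreeSeq μ.ord.ToType) (l : Ordinal.{0}) : SCldF μ l :=
  fun t => hF.not_wf t

/-- the pigeonhole property at all exponents -/
lemma nf_of_free (hμ : ℵ₀ ≤ μ) (hF : FreeSeq μ.ord.ToType) {X : Type} [LinearOrder X]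
    [WellFoundedLT X] (ν : Ordinal.{0}) : NF X (Order.succ μ) (Order.succ μ) ℵ₀ ν := by
  obtain ⟨n, hn⟩ := Ordinal.lt_omega0.1 (Ordinal.mod_lt ν Ordinal.omega0_ne_zero)
  have hl : ω * (ν / ω) = 0 ∨ Order.IsSuccLimit (ω * (ν / ω)) := by
    rcases eq_or_ne (ν / ω) 0 with h | h
    · left
      rw [h, mul_zero]
    · right
      exact Ordinal.isSuccLimit_mul_left Ordinal.isSuccLimit_omega0 (pos_iff_ne_zero.2 h)
  have hen : ω * (ν / ω) + n = ν := by
    rw [← hn]
    exact Ordinal.div_add_mod ν ω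
  have h := nf_goodG (X := X) hμ rfl hl n (Or.inl (sCldF_of_free hF _))
  rwa [hen] at h

/-- All indecomposable ordinals of cardinality above `μ`. -/
theorem rel_opow_of_free (hμ : ℵ₀ ≤ μ) (hF : FreeSeq μ.ord.ToType) {γ : Ordinal.{0}}
    (hc : μ < (ω ^ γ).card) : Rel (ω ^ γ) := by
  by_contra hR
  have hκ : ℵ₀ ≤ (ω ^ γ).card := hμ.trans hc.le
  have hle : (ω ^ γ).card.ord ≤ ω ^ γ := Cardinal.ord_card_le _
  have h1 := smallCover_of_not_rel hκ (Ordinal.opow_pos γ Ordinal.omega0_pos).ne'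
    (dvd_of_le_opow hκ hle) le_rfl hR
  have hs0 : ℵ₀ ≤ Order.succ μ := hμ.trans (Order.le_succ μ)
  obtain ⟨γ', h2, h3⟩ := smallCover_reflect hs0 (Order.succ_le_of_lt hc)
    (Order.succ_le_of_lt hc) h1
  have hle' : (Order.succ μ).ord ≤ ω ^ γ' := by
    rw [← h2]
    exact Cardinal.ord_card_le _
  obtain ⟨ν, q, hν1, hq0, hq, h4⟩ := opow_decomp hs0 hle'
  rw [h4] at h3
  exact no_smallCover_of (Cardinal.isRegular_succ hμ)
    (fun D T hD φ hφ hT => nf_of_free hμ hF ν D T φ hD hφ hT) hq h3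

/-- The limit ordinals all of whose uncountable terms have cardinality above `μ`. -/
theorem rel_of_free (hμ : ℵ₀ ≤ μ) (hF : FreeSeq μ.ord.ToType) {α : Ordinal.{0}}
    (hα : Order.IsSuccLimit α)
    (h : ∀ γ ∈ (CNF ω α).map Prod.fst, ℵ₀ < (ω ^ γ).card → μ < (ω ^ γ).card) : Rel α := by
  rw [rel_iff_terms hα]
  intro γ hγ
  rcases le_or_gt (ω ^ γ).card ℵ₀ with h1 | h1
  · exact rel_opow_countable (one_le_of_mem hα hγ) h1
  · exact rel_opow_of_free hμ hF (h γ hγ h1)

/-- Without free sequences the relation fails at some ordinal of cardinality `μ⁺`. -/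
theorem not_rel_of_not_free (hμ : ℵ₀ ≤ μ) (h2 : (2 : Cardinal.{0}) ^ μ = Order.succ μ)
    (hF : ¬ FreeSeq μ.ord.ToType) : ∃ α : Ordinal.{0}, Order.IsSuccLimit α ∧
      α.card = Order.succ μ ∧ IsPrincipal (· + ·) α ∧ ¬ Rel α := by
  have hinf : Infinite μ.ord.ToType := by
    rw [← Cardinal.aleph0_le_mk_iff, Cardinal.mk_ord_toType]
    exact hμ
  obtain ⟨l, hl, hlt, t, ht⟩ := exists_limit_of_not_free hinf hF
  rw [Cardinal.mk_ord_toType] at hlt
  have hs : ℵ₀ ≤ Order.succ μ := hμ.trans (Order.le_succ _)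
  have hlim2 : Order.IsSuccLimit (Order.succ (Order.succ μ)).ord :=
    Cardinal.isSuccLimit_ord (hs.trans (Order.le_succ _))
  have hl2 : l + 2 < (Order.succ (Order.succ μ)).ord := by
    have h3 : l < (Order.succ (Order.succ μ)).ord :=
      hlt.trans (Cardinal.ord_lt_ord.2 (Order.lt_succ _))
    exact add_nat_lt hlim2 h3 2
  have hpos : 0 < l + 2 := lt_of_lt_of_le two_pos le_add_self
  have hK : (0 : Ordinal.{0}) < (Order.succ μ).ord := by
    rw [Cardinal.ord_pos]
    exact Cardinal.aleph0_pos.trans_le hs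
  have hK1 : (1 : Ordinal.{0}) < (Order.succ μ).ord := by
    rw [Cardinal.lt_ord, Ordinal.card_one]
    exact Cardinal.one_lt_aleph0.trans_le hs
  have hiff := rel_iff_goodG hμ h2 (e := l + 2) (q := 1) hpos hl2 zero_lt_one hK1
  rw [mul_one] at hiff
  obtain ⟨c, hc⟩ : ω ∣ l := (Ordinal.isSuccLimit_iff_omega0_dvd.1 hl).2
  have hdiv : (l + 2) / ω = c := by
    rw [hc, Ordinal.mul_add_div c Ordinal.omega0_ne_zero]
    have h3 : (2 : Ordinal.{0}) / ω = 0 := Ordinal.div_eq_zero_of_lt (by exact_mod_cast Ordinal.natCast_lt_omega0 2)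
    rw [h3, add_zero]
  have hmod : (l + 2) % ω = 2 := by
    rw [hc, Ordinal.mul_add_mod_self]
    exact Ordinal.mod_eq_of_lt (by exact_mod_cast Ordinal.natCast_lt_omega0 2)
  have hbad : ¬ GoodF μ (l + 2) := by
    unfold GoodF
    rw [hdiv, hmod, ← hc]
    rintro (h | ⟨_, h⟩)
    · exact h t ht
    · exact lt_irrefl _ h
  have h5 : (Order.succ μ).ord ≤ (Order.succ μ).ord ^ (l + 2) := by
    conv_lhs => rw [← Ordinal.opow_one (Order.succ μ).ord]
    exact Ordinal.opow_le_opow_right hK (Order.one_le_iff_pos.2 hpos)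
  refine ⟨(Order.succ μ).ord ^ (l + 2), ?_, ?_, ?_, fun h => hbad (hiff.1 h)⟩
  · exact Ordinal.isSuccLimit_opow_left (Cardinal.isSuccLimit_ord hs) hpos.ne'
  · refine le_antisymm ?_ ?_
    · exact Order.lt_succ_iff.1 (Cardinal.lt_ord.1 (opow_lt_succ hs hl2))
    · have h6 := Ordinal.card_le_card h5
      rwa [Cardinal.card_ord] at h6
  · obtain ⟨η, hη⟩ := ord_eq_opow hs
    rw [hη, ← Ordinal.opow_mul]
    exact Ordinal.isPrincipal_add_omega0_opow _

/-- the covering hypothesis passes to smaller index sets -/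
lemma cover_mono {X Y : Type} (j : X ↪ Y) {κ : Cardinal.{0}}
    (hcov : ∀ (ι : Type) (U : ι → Set (Y → Bool)), #ι ≤ κ → (∀ i, IsOpen (U i)) →
      (∀ i, Dense (U i)) → (⋂ i, U i).Nonempty) :
    ∀ (ι : Type) (U : ι → Set (X → Bool)), #ι ≤ κ → (∀ i, IsOpen (U i)) →
      (∀ i, Dense (U i)) → (⋂ i, U i).Nonempty := by
  classical
  intro ι U hι ho hd
  have hcont : Continuous (fun c : Y → Bool => fun x => c (j x)) :=
    continuous_pi fun x => continuous_apply (j x)
  obtain ⟨c, hc⟩ := hcov ι (fun i => (fun c : Y → Bool => fun x => c (j x)) ⁻¹' (U i)) hι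
    (fun i => (ho i).preimage hcont) (by
      intro i
      rw [dense_iff_inter_open]
      rintro V hV ⟨c, hcV⟩
      obtain ⟨F, u, h1, h2⟩ := isOpen_pi_iff.1 hV c hcV
      let F' : Finset X := F.preimage j j.injective.injOn
      have hV' : IsOpen {d : X → Bool | ∀ x ∈ F', d x = c (j x)} := by
        have h3 : {d : X → Bool | ∀ x ∈ F', d x = c (j x)} =
            ⋂ x ∈ F', {d : X → Bool | d x = c (j x)} := by
          ext d
          simp only [Set.mem_ofPred_eq, Set.mem_iInter]
        rw [h3]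
        refine (Finset.finite_toSet F').isOpen_biInter fun x _ => ?_
        have h4 : Continuous (fun d : X → Bool => d x) := continuous_apply x
        exact (isOpen_discrete ({c (j x)} : Set Bool)).preimage h4
      obtain ⟨d, hd1, hd2⟩ := (dense_iff_inter_open.1 (hd i)) _ hV'
        ⟨fun x => c (j x), fun x _ => rfl⟩
      refine ⟨fun y => if h : ∃ x, j x = y then d h.choose else c y, h2 ?_, ?_⟩
      · intro y hy
        have h5 : (if h : ∃ x, j x = y then d h.choose else c y) = c y := by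
          by_cases h : ∃ x, j x = y
          · rw [dif_pos h]
            have h6 : j h.choose = y := h.choose_spec
            rw [hd1 h.choose (by
              rw [Finset.mem_preimage, h6]
              exact hy), h6]
          · rw [dif_neg h]
        beta_reduce
        rw [h5]
        exact (h1 y hy).2
      · have h7 : (fun x => (fun y => if h : ∃ x, j x = y then d h.choose else c y) (j x)) = d := by
          funext x
          have h : ∃ x', j x' = j x := ⟨x, rfl⟩
          beta_reduce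
          rw [dif_pos h, j.injective h.choose_spec]
        change (fun x => (fun y => if h : ∃ x, j x = y then d h.choose else c y) (j x)) ∈ U i
        rw [h7]
        exact hd2)
  exact ⟨fun x => c (j x), Set.mem_iInter.2 fun i => Set.mem_iInter.1 hc i⟩

/-- the relation from the covering hypothesis -/
theorem rel_of_cover {α : Ordinal.{0}} (hα : Order.IsSuccLimit α)
    (hcov : ∀ (ι : Type) (U : ι → Set (α.ToType → Bool)), #ι ≤ α.card → (∀ i, IsOpen (U i)) →
      (∀ i, Dense (U i)) → (⋂ i, U i).Nonempty) : Rel α := by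
  intro G
  by_cases hpath : ∃ v : ℕ → α.ToType, Function.Injective v ∧ ∀ n, G.Adj (v n) (v (n + 1))
  · exact Or.inr hpath
  left
  have hα0 : α ≠ 0 := fun h => by
    rw [h] at hα
    exact hα.ne_bot rfl
  have : Nonempty α.ToType := by
    rw [← Cardinal.mk_ne_zero_iff, Cardinal.mk_toType]
    exact fun h => hα0 (Ordinal.card_eq_zero.1 h)
  obtain ⟨pred, hT, hG⟩ := exists_treeOrd G (by
    intro v hv hadj
    exact hpath ⟨v, hv, hadj⟩)
  classical
  obtain ⟨x₀⟩ : Nonempty α.ToType := inferInstance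
  have hP := pp_limit hT α (Or.inr hα)
    (fun ξ => if h : ξ < α then ToType.mk (⟨ξ, h⟩ : Set.Iio α) else x₀) (by
      intro a ha b hb hab
      have ha' : a < α := ha
      have hb' : b < α := hb
      simp only [dif_pos ha', dif_pos hb']
      rw [OrderIso.lt_iff_lt]
      exact hab)
  have hgen : Gen α.ToType ℵ₀ #α.ToType :=
    gen_of_cover (by rw [Cardinal.mk_toType]; exact hcov)
  obtain ⟨A, hA, htype⟩ := exists_indep le_rfl hgen pred
    (fun R hR => Cardinal.lt_aleph0_iff_finite.2 hR.to_subtype) _ hP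
  refine ⟨A, ?_, htype⟩
  intro x hx y hy _ hxy
  rcases hG x y hxy with h | h
  · exact hA x hx y hy h
  · exact hA y hy x hx h

/-- The relation holds at all limit ordinals if some `μ` has free sequences and the Cantor cube
`{0,1}^μ` is not the union of `μ` nowhere dense sets. -/
theorem rel_all (hμ : ℵ₀ ≤ μ) (hF : FreeSeq μ.ord.ToType)
    (hcov : ∀ (ι : Type) (U : ι → Set (μ.ord.ToType → Bool)), #ι ≤ μ → (∀ i, IsOpen (U i)) →
      (∀ i, Dense (U i)) → (⋂ i, U i).Nonempty) {α : Ordinal.{0}} (hα : Order.IsSuccLimit α) :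
    Rel α := by
  rw [rel_iff_terms hα]
  intro γ hγ
  rcases lt_or_ge μ (ω ^ γ).card with h1 | h1
  · exact rel_opow_of_free hμ hF h1
  · have hγ1 := one_le_of_mem hα hγ
    have hlim : Order.IsSuccLimit (ω ^ γ : Ordinal.{0}) :=
      Ordinal.isSuccLimit_opow_left Ordinal.isSuccLimit_omega0
        (Order.one_le_iff_pos.1 hγ1).ne'
    refine rel_of_cover hlim ?_
    obtain ⟨j⟩ : Nonempty ((ω ^ γ : Ordinal.{0}).ToType ↪ μ.ord.ToType) :=
      (Cardinal.le_def _ _).1 (by
        rw [Cardinal.mk_toType, Cardinal.mk_ord_toType]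
        exact h1)
    exact fun ι U hι => cover_mono j hcov ι U (hι.trans h1)

end Pool.Agent.T6.H69.EHM
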