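import Mathlib
import Pool.Agent.T6.H69.EHM.Main

/-!
# Partition relations give free sequences; the covering property
-/

set_option autoImplicit false

namespace Pool.Agent.T6.H69.EHM

open Set Cardinal Ordinal Pool.Agent.TH764.OG

/-- Free sequences for countable-valued functions. -/
theorem FreeSeq.countable {D : Type} (h : FreeSeq D) (B : List D → Set D)
    (hB : ∀ s, (B s).Countable) :
    ∃ x : ℕ → D, ∀ k n, x k ∉ B ((List.range n).map fun j => x (k + 1 + j)) := by
  classical
  have h1 : ∀ s : List D, ∃ f : ℕ → Option D, ∀ y ∈ B s, ∃ n, f n = some y := by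
    intro s
    rcases (B s).eq_empty_or_nonempty with h0 | h0
    · refine ⟨fun _ => none, fun y hy => ?_⟩
      rw [h0] at hy
      exact absurd hy (Set.notMem_empty _)
    · obtain ⟨f, hf⟩ := (hB s).exists_eq_range h0
      refine ⟨fun n => some (f n), fun y hy => ?_⟩
      rw [hf] at hy
      obtain ⟨n, hn⟩ := hy
      exact ⟨n, congrArg some hn⟩
  choose f hf using h1
  obtain ⟨x, hx⟩ := h (fun s => {y | ∃ b, b <+: s ∧ ∃ n ≤ s.length, f b n = some y}) (by
    intro s
    have h2 : {b : List D | b <+: s}.Finite := by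
      refine (Finset.finite_toSet s.inits.toFinset).subset ?_
      intro b hb
      simp only [List.coe_toFinset, Set.mem_ofPred_eq]
      exact (List.mem_inits _ _).mpr hb
    have h3 : ((⋃ b ∈ {b : List D | b <+: s}, ⋃ n ∈ Set.Iic s.length,
        {y | f b n = some y}) : Set D).Finite := by
      refine h2.biUnion fun b _ => (Set.finite_Iic _).biUnion fun n _ => ?_
      refine Set.Subsingleton.finite ?_
      intro y hy z hz
      exact Option.some.inj (hy.symm.trans hz)
    refine h3.subset ?_
    rintro y ⟨b, hb, n, hn, hy⟩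
    exact Set.mem_biUnion (s := {b : List D | b <+: s}) hb
      (Set.mem_biUnion (s := Set.Iic s.length) hn hy))
  refine ⟨x, fun k n hcon => ?_⟩
  obtain ⟨m, hm⟩ := hf _ _ hcon
  refine hx k (max n m) ⟨_, ?_, m, ?_, hm⟩
  · obtain ⟨c, hc⟩ := Nat.exists_eq_add_of_le (le_max_left n m)
    rw [hc, List.range_add, List.map_append]
    exact List.prefix_append _ _
  · rw [List.length_map, List.length_range]
    exact le_max_right _ _

/-- The partition relation `μ → (ω)^{<ω}_2`: every colouring of the finite subsets of `μ` with two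
colours has an infinite set, of order type `ω`, such that the colour of its finite subsets depends
only on their size. -/
def Erdos (D : Type) [LinearOrder D] : Prop :=
  ∀ c : Finset D → Bool, ∃ f : ℕ ↪o D, ∀ s t : Finset ℕ, s.card = t.card →
    c (s.map f.toEmbedding) = c (t.map f.toEmbedding)

lemma map_sort_eq {D : Type} [LinearOrder D] (f : ℕ ↪o D) (l : List ℕ)
    (hl : l.Pairwise (· < ·)) :
    ((l.toFinset).map f.toEmbedding).sort (· ≤ ·) = l.map f := by
  have h2 : (l.map f).Pairwise (· < ·) := by
    rw [List.pairwise_map]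
    exact hl.imp fun h => f.lt_iff_lt.2 h
  have h3 : (l.toFinset).map f.toEmbedding = (l.map f).toFinset := by
    ext x
    simp
  rw [h3]
  refine (List.toFinset_sort (· ≤ ·) ?_).2 ?_
  · exact h2.imp fun h => ne_of_lt h
  · exact h2.imp fun h => le_of_lt h

/-- Erdős cardinals have free sequences. -/
theorem Erdos.freeSeq {D : Type} [LinearOrder D] (hE : Erdos D) : FreeSeq D := by
  classical
  intro B hB
  have h1 : ∀ s : List D, ∃ f : ℕ → Option D, ∀ y ∈ B s, ∃ n, f n = some y := by
    intro s
    rcases (B s).eq_empty_or_nonempty with h0 | h0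
    · refine ⟨fun _ => none, fun y hy => ?_⟩
      rw [h0] at hy
      exact absurd hy (Set.notMem_empty _)
    · obtain ⟨f, hf⟩ := (hB s).countable.exists_eq_range h0
      refine ⟨fun n => some (f n), fun y hy => ?_⟩
      rw [hf] at hy
      obtain ⟨n, hn⟩ := hy
      exact ⟨n, congrArg some hn⟩
  choose g hg using h1
  -- the colouring
  let Q : List D → ℕ → ℕ → Prop := fun s n i =>
    ∃ a u, s = a :: u ∧ g (u.take n) i = some a
  let c : Finset D → Bool := fun s =>
    decide (Q (s.sort (· ≤ ·)) (Nat.unpair (s.card - 1)).1 (Nat.unpair (s.card - 1)).2)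
  obtain ⟨f, hf⟩ := hE c
  have hQ : ∀ (l : List ℕ), l.Pairwise (· < ·) →
      (c ((l.toFinset).map f.toEmbedding) = true ↔
        Q (l.map f) (Nat.unpair (l.length - 1)).1 (Nat.unpair (l.length - 1)).2) := by
    intro l hl
    simp only [c, decide_eq_true_eq]
    rw [map_sort_eq f l hl, Finset.card_map, List.toFinset_card_of_nodup
      (hl.imp fun h => ne_of_lt h)]
  refine ⟨fun k => f k, fun k n hcon => ?_⟩
  obtain ⟨i, hi⟩ := hg _ _ hcon
  obtain ⟨m, hm⟩ : ∃ m, m = Nat.pair n i := ⟨_, rfl⟩
  have hnm : n ≤ m := by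
    rw [hm]
    exact Nat.left_le_pair n i
  have hpw : ∀ a b : ℕ, a < b → ((a :: (List.range m).map fun j => b + j) : List ℕ).Pairwise
      (· < ·) := by
    intro a b hab
    rw [List.pairwise_cons]
    refine ⟨?_, ?_⟩
    · intro y hy
      obtain ⟨j, _, rfl⟩ := List.mem_map.1 hy
      omega
    · rw [List.pairwise_map]
      exact List.pairwise_lt_range.imp fun h => by omega
  have hcard : ∀ a b : ℕ, a < b → (((a :: (List.range m).map fun j => b + j) : List ℕ).toFinset).card
      = m + 1 := by
    intro a b hab
    rw [List.toFinset_card_of_nodup ((hpw a b hab).imp fun h => ne_of_lt h)]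
    simp
  have hlen : ∀ a b : ℕ, ((a :: (List.range m).map fun j => b + j) : List ℕ).length - 1 = m := by
    intro a b
    simp
  have htrue : ∀ a b : ℕ, a < b →
      g (((List.range m).map fun j => f (b + j)).take n) i = some (f a) := by
    intro a b hab
    have h2 : c (((k :: (List.range m).map fun j => k + 1 + j).toFinset).map f.toEmbedding) =
        true := by
      rw [hQ _ (hpw k (k + 1) (Nat.lt_succ_self k)), hlen, hm, Nat.unpair_pair]
      refine ⟨f k, ((List.range (Nat.pair n i)).map fun j => f (k + 1 + j)), ?_, ?_⟩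
      · rw [List.map_cons, List.map_map]
        rfl
      · rw [← List.map_take, List.take_range, min_eq_left (by rw [← hm]; exact hnm)]
        exact hi
    rw [hf _ ((a :: (List.range m).map fun j => b + j).toFinset) (by
      rw [hcard _ _ hab, hcard _ _ (Nat.lt_succ_self k)]),
      hQ _ (hpw a b hab), hlen, hm, Nat.unpair_pair] at h2
    obtain ⟨a', u, h3, h4⟩ := h2
    rw [List.map_cons, List.cons.injEq, List.map_map] at h3
    rw [← h3.1, ← h3.2] at h4
    rw [hm]
    exact h4
  have h5 := htrue 0 2 (by omega)
  rw [htrue 1 2 (by omega)] at h5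
  exact absurd (f.injective (Option.some.inj h5)) (by decide)

end Pool.Agent.T6.H69.EHM
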