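import Mathlib
import Pool.Agent.Helper669.KCohen
import Pool.Agent.T6.H69.EHM.Erdos

/-!
# Cohen forcing: free sequences and the covering property in the extension
-/

set_option autoImplicit false

namespace Pool.Agent.T6.H69.EHM

open Set Cardinal Ordinal Pool.Agent.Helper669.Forcing
open Pool.Agent.Helper669.K (CC)

/-- finite partial functions from `D` to `Bool`, given by their graphs -/
def IsFn {D : Type} (t : Finset (D × Bool)) : Prop := ∀ x b b', (x, b) ∈ t → (x, b') ∈ t → b = b'

/-- The covering property: for every family of `#D` many dense sets of finite partial functions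
from `D` to `Bool` there is a function from `D` to `Bool` extending an element of each of them. -/
def Cov (D : Type) : Prop :=
  ∀ E : D → Set (Finset (D × Bool)), (∀ i s, IsFn s → ∃ t ∈ E i, IsFn t ∧ s ⊆ t) →
    ∃ c : D → Bool, ∀ i, ∃ t ∈ E i, ∀ p ∈ t, c p.1 = p.2

section

variable (P : Type) [Preorder P] (D : Type)

/-- The sentence of the forcing language expressing that `D` has the free sequence property. A name
`B` of a map from finite sequences to sets is given by the sets `B s y` of conditions attached to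
the statements `y ∈ B s`. -/
def fFree : Set P :=
  fall fun B : List D → D → Set P =>
    fimp (fall fun s => fex fun F : Finset D => fall fun y =>
        fimp (meets (B s y)) (fground (y ∈ F)))
      (fex fun X : ℕ → D → Set P => fand (IsFun X)
        (fall fun k : ℕ => fall fun s : List D => fall fun y : D =>
          fimp (fand (meets (X k y)) (fall fun i : Fin s.length =>
              meets (X (k + 1 + i) (s.get i))))
            (fnot (meets (B s y)))))

/-- The sentence of the forcing language expressing that `D` has the covering property. -/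
def fCov : Set P :=
  fall fun E : D → Finset (D × Bool) → Set P =>
    fimp (fall fun i => fall fun s => fall fun _ : IsFn s => fex fun t =>
        fand (fground (IsFn t ∧ s ⊆ t)) (meets (E i t)))
      (fex fun C : D → Bool → Set P => fand (IsFun C)
        (fall fun i => fex fun t => fand (meets (E i t))
          (fall fun p : D × Bool => fall fun _ : p ∈ t => meets (C p.1 p.2))))

end

section Free

variable {P : Type} [Preorder P] {D : Type}

/-- a maximal antichain in a set of conditions of a ccc notion of forcing is countable -/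
lemma exists_antichain
    (hccc : ∀ (ι : Type) (f : ι → P), ℵ₀ < #ι → ∃ i j, i ≠ j ∧ ∃ r, r ≤ f i ∧ r ≤ f j)
    (N : Set P) : ∃ A : Set P, A ⊆ N ∧ A.Countable ∧ ∀ r ∈ N, ∃ a ∈ A, ∃ r', r' ≤ r ∧ r' ≤ a := by
  obtain ⟨A, hA⟩ := zorn_subset {A : Set P | A ⊆ N ∧ A.Pairwise fun a b =>
    ¬ ∃ r', r' ≤ a ∧ r' ≤ b} (by
    intro c hc hchain
    refine ⟨⋃₀ c, ⟨Set.sUnion_subset fun s hs => (hc hs).1, ?_⟩,
      fun s hs => Set.subset_sUnion_of_mem hs⟩
    exact (Set.pairwise_sUnion hchain.directedOn).2 fun s hs => (hc hs).2)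
  refine ⟨A, hA.prop.1, ?_, ?_⟩
  · by_contra hcon
    rw [← Set.countable_coe_iff, ← Cardinal.mk_le_aleph0_iff, not_le] at hcon
    obtain ⟨i, j, hij, r, h1, h2⟩ := hccc A (fun a => a.1) hcon
    exact hA.prop.2 i.2 j.2 (fun h => hij (Subtype.ext h)) ⟨r, h1, h2⟩
  · intro r hr
    by_contra hcon
    push Not at hcon
    have h1 : insert r A ∈ {A : Set P | A ⊆ N ∧ A.Pairwise fun a b =>
        ¬ ∃ r', r' ≤ a ∧ r' ≤ b} := by
      refine ⟨Set.insert_subset hr hA.prop.1, ?_⟩
      refine hA.prop.2.insert ?_
      intro a ha _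
      refine ⟨?_, ?_⟩
      · rintro ⟨r', h2, h3⟩
        exact hcon a ha r' h2 h3
      · rintro ⟨r', h2, h3⟩
        exact hcon a ha r' h3 h2
    have h2 : r ∈ A := hA.le_of_ge h1 (Set.subset_insert r A) (Set.mem_insert r A)
    exact hcon r h2 r le_rfl le_rfl

/-- Forcings with the countable chain condition preserve the free sequence property. -/
theorem forced_free (hF : FreeSeq D)
    (hccc : ∀ (ι : Type) (f : ι → P), ℵ₀ < #ι → ∃ i j, i ≠ j ∧ ∃ r, r ≤ f i ∧ r ≤ f j) (p : P) :
    p ∈ fFree P D := by
  intro B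
  refine mem_fimp.2 fun q _ hq => ?_
  have hcount : ∀ s, {y | ∃ r ≤ q, r ∈ meets (B s y)}.Countable := by
    intro s
    obtain ⟨A, hA1, hA2, hA3⟩ := exists_antichain hccc
      {r : P | ∃ F : Finset D, ∀ y, r ∈ fimp (meets (B s y)) (fground (y ∈ F))}
    choose F hF using fun a : A => hA1 a.2
    have hA2' : Countable A := hA2
    refine (Set.countable_iUnion fun a : A => (F a).countable_toSet).mono ?_
    rintro y ⟨r, hr, hy⟩
    obtain ⟨r1, h1, F', h2⟩ := mem_fex.1 (hq s) r hr
    obtain ⟨a, ha, r2, h3, h4⟩ := hA3 r1 ⟨F', h2⟩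
    refine Set.mem_iUnion.2 ⟨⟨a, ha⟩, ?_⟩
    obtain ⟨r3, _, h5⟩ := mem_fimp.1 (hF ⟨a, ha⟩ y) r2 h4
      (down_meets _ _ hy r2 (h3.trans h1))
    exact h5
  obtain ⟨x, hx⟩ := hF.countable _ hcount
  refine ⟨q, le_rfl, mem_fex_of_mem (fun k y => {_r : P | y = x k})
    (down_fand (down_IsFun _) (down_fall fun _ => down_fall fun _ => down_fall fun _ =>
      down_fimp _ _)) ⟨⟨?_, ?_⟩, ?_⟩⟩
  · intro k
    exact mem_fex_of_mem (x k) (down_meets _) (meets_of_mem (N := {_r : P | x k = x k}) rfl)
  · intro k y y'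
    refine mem_fimp.2 fun r _ hr => ⟨r, le_rfl, ?_⟩
    obtain ⟨_, _, _, h1, _⟩ := hr.1 r le_rfl
    obtain ⟨_, _, _, h2, _⟩ := hr.2 r le_rfl
    have h1' : y = x k := h1
    have h2' : y' = x k := h2
    exact h1'.trans h2'.symm
  · intro k s y
    refine mem_fimp.2 fun r hr hrs => ⟨r, le_rfl, ?_⟩
    intro r' hr' hcon
    obtain ⟨_, _, _, h1, _⟩ := hrs.1 r le_rfl
    have h1' : y = x k := h1
    have h2 : ∀ i : Fin s.length, s.get i = x (k + 1 + i) := by
      intro i
      obtain ⟨_, _, _, h, _⟩ := hrs.2 i r le_rfl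
      exact h
    have h3 : s = (List.range s.length).map fun j => x (k + 1 + j) := by
      refine List.ext_getElem (by simp) ?_
      intro n hn1 hn2
      rw [List.getElem_map, List.getElem_range]
      exact h2 ⟨n, hn1⟩
    refine hx k s.length ?_
    rw [← h3, ← h1']
    exact ⟨r', hr'.trans hr, hcon⟩

end Free

end Pool.Agent.T6.H69.EHM
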