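import Mathlib
import Pool.Agent.T6.H69.EHM.Forced

/-!
# Cohen forcing: the covering property in the extension
-/

set_option autoImplicit false

namespace Pool.Agent.T6.H69.EHM

open Set Cardinal Ordinal Pool.Agent.Helper669.Forcing
open Pool.Agent.Helper669.K (CC CC.mk_supported mk_finset_le_max)

variable {L D : Type}

/-- the restriction of a condition -/
def resC (r : CC L) (M : Set L) : CC L where
  g := {x | x ∈ r.g ∧ x.1 ∈ M}
  fin := r.fin.subset fun _ h => h.1
  fn := fun a n b b' h h' => r.fn a n b b' h.1 h'.1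

lemma le_resC (r : CC L) (M : Set L) : r ≤ resC r M := fun _ h => h.1

/-- closing off -/
lemma exists_support (hD : ℵ₀ ≤ #D) (E : D → Finset (D × Bool) → Set (CC L)) (q : CC L) :
    ∃ M : Set L, #M ≤ #D ∧ (∀ x ∈ q.g, x.1 ∈ M) ∧
      ∀ u : CC L, (∀ x ∈ u.g, x.1 ∈ M) → ∀ i t, (∃ r ≤ u, r ∈ meets (E i t)) →
        ∃ r ≤ u, (∀ x ∈ r.g, x.1 ∈ M) ∧ r ∈ meets (E i t) := by
  classical
  let W : CC L → D → Finset (D × Bool) → Set L := fun u i t =>
    if h : ∃ r ≤ u, r ∈ meets (E i t) then Prod.fst '' h.choose.g else ∅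
  have hWfin : ∀ u i t, (W u i t).Finite := by
    intro u i t
    by_cases h : ∃ r ≤ u, r ∈ meets (E i t)
    · simp only [W, dif_pos h]
      exact h.choose.fin.image _
    · simp only [W, dif_neg h]
      exact Set.finite_empty
  let F : Set L → Set L := fun A => A ∪ ⋃ p : {u : CC L // ∀ x ∈ u.g, x.1 ∈ A} ×
    (D × Finset (D × Bool)), W p.1.1 p.2.1 p.2.2
  have hsmall : ∀ A : Set L, #A ≤ #D → #(F A) ≤ #D := by
    intro A hA
    refine (Cardinal.mk_union_le _ _).trans ((add_le_add hA ?_).trans (Cardinal.add_eq_self hD).le)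
    refine (Cardinal.mk_iUnion_le_sum_mk).trans ?_
    refine (Cardinal.sum_le_sum _ (fun _ => ℵ₀) fun p => ?_).trans ?_
    · exact (Cardinal.lt_aleph0_iff_finite.2 (hWfin _ _ _).to_subtype).le
    · rw [Cardinal.sum_const, Cardinal.lift_id, Cardinal.lift_id]
      have h1 : #{u : CC L // ∀ x ∈ u.g, x.1 ∈ A} ≤ #D :=
        (CC.mk_supported A).trans (max_le hA hD)
      have h2 : #(Finset (D × Bool)) ≤ #D := by
        refine (mk_finset_le_max _).trans (max_le ?_ hD)
        rw [Cardinal.mk_prod, Cardinal.lift_id, Cardinal.lift_id]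
        refine (mul_le_mul' le_rfl ((Cardinal.lt_aleph0_of_finite Bool).le.trans hD)).trans ?_
        exact (Cardinal.mul_eq_self hD).le
      simp only [Cardinal.mk_prod, Cardinal.lift_id]
      calc #{u : CC L // ∀ x ∈ u.g, x.1 ∈ A} * (#D * #(Finset (D × Bool))) * ℵ₀
          ≤ #D * (#D * #D) * #D :=
            mul_le_mul' (mul_le_mul' h1 (mul_le_mul' le_rfl h2)) hD
        _ = #D := by rw [Cardinal.mul_eq_self hD, Cardinal.mul_eq_self hD, Cardinal.mul_eq_self hD]
  let Z : ℕ → Set L := fun n => Nat.rec (motive := fun _ => Set L) (Prod.fst '' q.g)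
    (fun _ A => F A) n
  have hZ : ∀ n, Z (n + 1) = F (Z n) := fun n => rfl
  have hcard : ∀ n, #(Z n) ≤ #D := by
    intro n
    induction n with
    | zero => exact (Cardinal.lt_aleph0_iff_finite.2 (q.fin.image _).to_subtype).le.trans hD
    | succ n ih =>
      rw [hZ n]
      exact hsmall _ ih
  have hmono : ∀ m n, m ≤ n → Z m ⊆ Z n := by
    intro m n hmn
    induction n, hmn using Nat.le_induction with
    | base => exact subset_rfl
    | succ n _ ih =>
      rw [hZ n]
      exact ih.trans Set.subset_union_left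
  refine ⟨⋃ n, Z n, ?_, ?_, ?_⟩
  · refine (Cardinal.mk_iUnion_le_sum_mk).trans ?_
    refine (Cardinal.sum_le_sum _ (fun _ : ℕ => #D) hcard).trans ?_
    rw [Cardinal.sum_const, Cardinal.lift_id, Cardinal.lift_id, Cardinal.mk_nat]
    exact (mul_le_mul' hD le_rfl).trans (Cardinal.mul_eq_self hD).le
  · intro x hx
    exact Set.mem_iUnion.2 ⟨0, x, hx, rfl⟩
  · intro u hu i t hex
    obtain ⟨n, hn⟩ : ∃ n, ∀ x ∈ u.g, x.1 ∈ Z n := by
      have h1 : ∀ x ∈ u.g, ∃ n, x.1 ∈ Z n := fun x hx => Set.mem_iUnion.1 (hu x hx)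
      have h2 : ∀ x : L × (ℕ × Bool), ∃ n, x ∈ u.g → x.1 ∈ Z n := by
        intro x
        by_cases hx : x ∈ u.g
        · obtain ⟨n, hn⟩ := h1 x hx
          exact ⟨n, fun _ => hn⟩
        · exact ⟨0, fun h => absurd h hx⟩
      choose f hf using h2
      obtain ⟨n, hn⟩ := (u.fin.image f).bddAbove
      exact ⟨n, fun x hx => hmono _ _ (hn ⟨x, hx, rfl⟩) (hf x hx)⟩
    refine ⟨hex.choose, hex.choose_spec.1, ?_, hex.choose_spec.2⟩
    intro x hx
    refine Set.mem_iUnion.2 ⟨n + 1, ?_⟩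
    rw [hZ n]
    refine Or.inr (Set.mem_iUnion.2 ⟨(⟨u, hn⟩, (i, t)), ?_⟩)
    simp only [W, dif_pos hex]
    exact ⟨x, hx, rfl⟩

/-- The covering property holds after adding more than `#D` Cohen reals. -/
theorem forced_cov (hD : ℵ₀ ≤ #D) (hL : #D < #L) (p : CC L) : p ∈ fCov (CC L) D := by
  classical
  intro E
  refine mem_fimp.2 fun q _ hE => ⟨q, le_rfl, ?_⟩
  obtain ⟨M, hM1, hM2, hM3⟩ := exists_support hD E q
  have hinf : Infinite L := Cardinal.aleph0_le_mk_iff.1 (hD.trans hL.le)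
  obtain ⟨j⟩ : Nonempty (D ↪ (Mᶜ : Set L)) := (Cardinal.le_def _ _).1 (by
    have h1 : ℵ₀ ≤ #L := hD.trans hL.le
    have h2 : #(Mᶜ : Set L) = #L := by
      refine Cardinal.mk_compl_of_infinite M (hM1.trans_lt hL)
    rw [h2]
    exact hL.le)
  let C : D → Bool → Set (CC L) := fun y b => {r | ((j y).1, (0, b)) ∈ r.g}
  have hC : ∀ {r : CC L} {y b}, r ∈ meets (C y b) → ∃ s ≤ r, ((j y).1, (0, b)) ∈ s.g := by
    intro r y b h
    obtain ⟨s, hs, s', hs', hle⟩ := h r le_rfl
    exact ⟨s, hs, hle hs'⟩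
  refine mem_fex_of_mem C (down_fand (down_IsFun _) (down_fall fun _ => down_fex _))
    ⟨⟨?_, ?_⟩, ?_⟩
  · intro y
    refine mem_fex.2 fun r _ => ?_
    by_cases h : ∃ b, ((j y).1, (0, b)) ∈ r.g
    · obtain ⟨b, hb⟩ := h
      exact ⟨r, le_rfl, b, meets_of_mem (N := C y b) hb⟩
    · push Not at h
      refine ⟨⟨insert ((j y).1, (0, true)) r.g, r.fin.insert _, ?_⟩, Set.subset_insert _ _, true,
        meets_of_mem (N := C y true) (Set.mem_insert _ _)⟩
      rintro a n b b' (h1 | h1) (h2 | h2)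
      · simp only [Prod.mk.injEq] at h1 h2
        rw [h1.2.2, h2.2.2]
      · simp only [Prod.mk.injEq] at h1
        rw [h1.1, h1.2.1] at h2
        exact absurd h2 (h b')
      · simp only [Prod.mk.injEq] at h2
        rw [h2.1, h2.2.1] at h1
        exact absurd h1 (h b)
      · exact r.fn a n b b' h1 h2
  · intro y b b'
    refine mem_fimp.2 fun r _ hr => ⟨r, le_rfl, ?_⟩
    obtain ⟨s, hs, hsb⟩ := hC hr.1
    obtain ⟨s', hs', hsb'⟩ := hC (down_meets _ _ hr.2 s hs)
    exact s'.fn _ _ _ _ (hs' hsb) hsb'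
  · intro i
    refine mem_fex.2 fun r hr => ?_
    -- the part of `r` on the range of `j`
    have hs0fin : {p : D × Bool | ((j p.1).1, (0, p.2)) ∈ r.g}.Finite := by
      refine r.fin.preimage (f := fun p : D × Bool => ((j p.1).1, ((0 : ℕ), p.2))) ?_
      rintro ⟨y, b⟩ _ ⟨y', b'⟩ _ h
      simp only [Prod.mk.injEq] at h
      exact Prod.ext (j.injective (Subtype.ext h.1)) h.2.2
    have hs0 : IsFn hs0fin.toFinset := by
      intro y b b' h h'
      rw [Set.Finite.mem_toFinset] at h h'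
      exact r.fn _ _ _ _ h h'
    have hqr : resC r {a | ∀ y, a ≠ (j y).1} ≤ q := by
      intro x hx
      refine ⟨hr hx, fun y hy => ?_⟩
      have h1 := hM2 x hx
      rw [hy] at h1
      exact (j y).2 h1
    obtain ⟨r1, hr1, t, ⟨ht1, ht2⟩, hr1t⟩ := mem_fex.1 (hE i hs0fin.toFinset hs0) _ hqr
    obtain ⟨r2, hr2, hr2M, hr2t⟩ := hM3 (resC r1 M) (fun x hx => hx.2) i t
      ⟨r1, le_resC r1 M, hr1t⟩
    let T : Set (L × (ℕ × Bool)) := (fun p : D × Bool => ((j p.1).1, ((0 : ℕ), p.2))) '' (t : Set _)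
    have hTfin : T.Finite := (Finset.finite_toSet t).image _
    have hTnot : ∀ x ∈ T, x.1 ∉ M := by
      rintro _ ⟨p, _, rfl⟩
      exact (j p.1).2
    have hrT : ∀ y n b b', ((j y).1, (n, b)) ∈ r.g → ((j y).1, (n, b')) ∈ T → b = b' := by
      rintro y n b b' h1 ⟨p, hp, h2⟩
      simp only [Prod.mk.injEq] at h2
      have h3 : p.1 = y := j.injective (Subtype.ext h2.1)
      rw [← h2.2.1] at h1
      have h4 : (y, b) ∈ t := ht2 (by
        rw [Set.Finite.mem_toFinset]
        exact h1)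
      refine ht1 y b b' h4 ?_
      rw [← h3, ← h2.2.2]
      exact hp
    refine ⟨⟨r2.g ∪ ({x | x ∈ r.g ∧ x.1 ∉ M} ∪ T), r2.fin.union ((r.fin.subset
      fun _ h => h.1).union hTfin), ?_⟩, ?_, t, ?_, ?_⟩
    · rintro a n b b' (h1 | h1 | h1) (h2 | h2 | h2)
      · exact r2.fn a n b b' h1 h2
      · exact absurd (show a ∈ M from hr2M _ h1) h2.2
      · exact absurd (show a ∈ M from hr2M _ h1) (hTnot _ h2)
      · exact absurd (show a ∈ M from hr2M _ h2) h1.2
      · exact r.fn a n b b' h1.1 h2.1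
      · obtain ⟨p, hp, h3⟩ := id h2
        have h4 : a = (j p.1).1 := by
          simp only [Prod.mk.injEq] at h3
          exact h3.1.symm
        subst h4
        exact hrT p.1 n b b' h1.1 h2
      · exact absurd (show a ∈ M from hr2M _ h2) (hTnot _ h1)
      · obtain ⟨p, hp, h3⟩ := id h1
        have h4 : a = (j p.1).1 := by
          simp only [Prod.mk.injEq] at h3
          exact h3.1.symm
        subst h4
        exact (hrT p.1 n b' b h2.1 h1).symm
      · obtain ⟨p, hp, h3⟩ := h1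
        obtain ⟨p', hp', h4⟩ := h2
        simp only [Prod.mk.injEq] at h3 h4
        have h5 : p.1 = p'.1 := j.injective (Subtype.ext (h3.1.trans h4.1.symm))
        rw [← h3.2.2, ← h4.2.2]
        refine ht1 p.1 p.2 p'.2 hp ?_
        rw [h5]
        exact hp'
    · intro x hx
      by_cases hxM : x.1 ∈ M
      · refine Or.inl (hr2 ⟨hr1 ⟨hx, fun y hy => ?_⟩, hxM⟩)
        rw [hy] at hxM
        exact (j y).2 hxM
      · exact Or.inr (Or.inl ⟨hx, hxM⟩)
    · exact down_meets _ _ hr2t _ Set.subset_union_left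
    · intro p hp
      exact meets_of_mem (N := C p.1 p.2) (Or.inr (Or.inr ⟨p, hp, rfl⟩))

end Pool.Agent.T6.H69.EHM
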