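import Mathlib
import Pool.Agent.T6.H69.EHM.Forced2

/-!
# Summary of the results on the path relation
-/

set_option autoImplicit false

namespace Pool.Agent.T6.H69.EHM

open Set Cardinal Ordinal Pool.Agent.TH764.OG

/-- A countable set has no free sequences. -/
theorem not_freeSeq_of_countable {D : Type} [Countable D] : ¬ FreeSeq D := by
  intro h
  obtain ⟨e, he⟩ := exists_injective_nat D
  obtain ⟨x, hx⟩ := h (fun s => match s with
    | [] => ∅
    | y :: _ => {x | e x ≤ e y}) (by
      intro s
      cases s with
      | nil => exact Set.finite_empty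
      | cons y s => exact (Set.finite_Iic (e y)).preimage he.injOn)
  have h1 : ∀ k, e (x (k + 1)) < e (x k) := by
    intro k
    have h2 := hx k 1
    simp only [List.range_one, List.map_cons, List.map_nil, add_zero, Set.mem_ofPred_eq,
      not_le] at h2
    exact h2
  obtain ⟨n, hn⟩ := WellFounded.not_rel_apply_succ (r := ((· < ·) : ℕ → ℕ → Prop))
    (fun k => e (x k))
  exact hn (h1 n)

/-- finite partial functions extending a given one in a dense open set -/
theorem cov_topological {D : Type} (hC : Cov D) :
    ∀ (ι : Type) (U : ι → Set (D → Bool)), #ι ≤ #D → (∀ i, IsOpen (U i)) →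
      (∀ i, Dense (U i)) → (⋂ i, U i).Nonempty := by
  classical
  intro ι U hι ho hd
  obtain ⟨j⟩ := (Cardinal.le_def _ _).1 hι
  obtain ⟨c, hc⟩ := hC (fun y => {t | IsFn t ∧ ∀ i, j i = y → ∀ d : D → Bool,
    (∀ p ∈ t, d p.1 = p.2) → d ∈ U i}) (by
      intro y s hs
      by_cases hy : ∃ i, j i = y
      · obtain ⟨i, rfl⟩ := hy
        -- the basic open set given by `s`
        let c₀ : D → Bool := fun x => decide ((x, true) ∈ s)
        have hc₀ : ∀ p ∈ s, c₀ p.1 = p.2 := by
          rintro ⟨x, b⟩ hp
          cases b with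
          | true => exact decide_eq_true hp
          | false =>
            refine decide_eq_false fun h => ?_
            have := hs x true false h hp
            exact absurd this (by decide)
        have hV : IsOpen {d : D → Bool | ∀ p ∈ s, d p.1 = p.2} := by
          have h3 : {d : D → Bool | ∀ p ∈ s, d p.1 = p.2} =
              ⋂ p ∈ s, {d : D → Bool | d p.1 = p.2} := by
            ext d
            simp only [Set.mem_ofPred_eq, Set.mem_iInter]
          rw [h3]
          refine (Finset.finite_toSet s).isOpen_biInter fun p _ => ?_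
          have h4 : Continuous (fun d : D → Bool => d p.1) := continuous_apply p.1
          exact (isOpen_discrete ({p.2} : Set Bool)).preimage h4
        obtain ⟨d, hd1, hd2⟩ := (dense_iff_inter_open.1 (hd i)) _ hV ⟨c₀, hc₀⟩
        obtain ⟨F, u, h1, h2⟩ := isOpen_pi_iff.1 (ho i) d hd2
        refine ⟨s ∪ F.image fun x => (x, d x), ⟨?_, ?_⟩, ?_, Finset.subset_union_left⟩
        · intro x b b' h h'
          have h5 : ∀ b, (x, b) ∈ s ∪ F.image (fun x => (x, d x)) → d x = b := by
            intro b hb
            rcases Finset.mem_union.1 hb with hb | hb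
            · exact hd1 _ hb
            · obtain ⟨z, _, hz⟩ := Finset.mem_image.1 hb
              rw [Prod.mk.injEq] at hz
              rw [← hz.1]
              exact hz.2
          rw [← h5 b h, ← h5 b' h']
        · intro i' hi' d' hd'
          rw [j.injective hi']
          refine h2 ?_
          intro x hx
          have h5 : d' x = d x := hd' (x, d x) (Finset.mem_union_right _
            (Finset.mem_image_of_mem _ hx))
          rw [h5]
          exact (h1 x hx).2
        · intro x b b' h h'
          have h5 : ∀ b, (x, b) ∈ s ∪ F.image (fun x => (x, d x)) → d x = b := by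
            intro b hb
            rcases Finset.mem_union.1 hb with hb | hb
            · exact hd1 _ hb
            · obtain ⟨z, _, hz⟩ := Finset.mem_image.1 hb
              rw [Prod.mk.injEq] at hz
              rw [← hz.1]
              exact hz.2
          rw [← h5 b h, ← h5 b' h']
      · exact ⟨s, ⟨hs, fun i hi => absurd ⟨i, hi⟩ hy⟩, hs, subset_rfl⟩)
  refine ⟨c, Set.mem_iInter.2 fun i => ?_⟩
  obtain ⟨t, ht1, ht2⟩ := hc (j i)
  exact ht1.2 i rfl c ht2

/-- The relation holds at all limit ordinals if some `μ` has free sequences and the covering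
property. -/
theorem rel_all_cov {μ : Cardinal.{0}} (hμ : ℵ₀ ≤ μ) (hF : FreeSeq μ.ord.ToType)
    (hC : Cov μ.ord.ToType) {α : Ordinal.{0}} (hα : Order.IsSuccLimit α) : Rel α := by
  refine rel_all hμ hF ?_ hα
  have h := cov_topological hC
  rwa [Cardinal.mk_ord_toType] at h

/-- The exact answer at cardinality `μ⁺` if `2 ^ μ = μ⁺`. -/
theorem free_iff {μ : Cardinal.{0}} (hμ : ℵ₀ ≤ μ) (h2 : (2 : Cardinal.{0}) ^ μ = Order.succ μ) :
    FreeSeq μ.ord.ToType ↔ ∀ α : Ordinal.{0}, IsPrincipal (· + ·) α → α.card = Order.succ μ →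
      Rel α := by
  constructor
  · intro hF α hα hc
    rcases Ordinal.isPrincipal_add_iff_zero_or_omega0_opow.1 hα with h | ⟨γ, h⟩
    · rw [h, Ordinal.card_zero] at hc
      exact absurd hc.symm (hμ.trans_lt (Order.lt_succ μ) |>.ne_bot)
    · have h' : α = ω ^ γ := h.symm
      subst h'
      refine rel_opow_of_free hμ hF ?_
      rw [hc]
      exact Order.lt_succ μ
  · intro h
    by_contra hF
    obtain ⟨α, _, h3, h4, h5⟩ := not_rel_of_not_free hμ h2 hF
    exact h5 (h α h4 h3)

/-- The continuum hypothesis refutes the relation at some limit ordinal. -/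
theorem not_rel_of_ch (h : (2 : Cardinal.{0}) ^ (ℵ₀ : Cardinal.{0}) = ℵ₁) :
    ∃ α : Ordinal.{0}, Order.IsSuccLimit α ∧ ¬ Rel α := by
  have : Countable (ℵ₀ : Cardinal.{0}).ord.ToType := by
    rw [← Cardinal.mk_le_aleph0_iff, Cardinal.mk_ord_toType]
  obtain ⟨α, h1, _, _, h2⟩ := not_rel_of_not_free le_rfl (by rw [h, Cardinal.succ_aleph0])
    (not_freeSeq_of_countable (D := (ℵ₀ : Cardinal.{0}).ord.ToType))
  exact ⟨α, h1, h2⟩

end Pool.Agent.T6.H69.EHM
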